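import Mathlib

/-!
A consequence of the theorems of Hindman and Schur for an infinite field of characteristic two.
-/

set_option autoImplicit false

namespace Pool.Agent.HuaPP2_39

open Hindman Filter

attribute [local instance] Ultrafilter.add Ultrafilter.addSemigroup

/-- The elements of `FS a` are finite sums. -/
theorem exists_sum_of_mem_FS {M : Type} [AddCommMonoid M] (a : Stream' M) (m : M)
    (h : m ∈ FS a) : ∃ s : Finset ℕ, s.Nonempty ∧ m = ∑ i ∈ s, a.get i := by
  classical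
  induction h with
  | head' a =>
    exact ⟨{0}, Finset.singleton_nonempty _, (Finset.sum_singleton _ _).symm⟩
  | tail' a m _ ih =>
    obtain ⟨s, hs, e⟩ := ih
    refine ⟨s.map ⟨Nat.succ, Nat.succ_injective⟩, by simpa using hs, ?_⟩
    rw [e, Finset.sum_map]
    rfl
  | cons' a m _ ih =>
    obtain ⟨s, hs, e⟩ := ih
    refine ⟨insert 0 (s.map ⟨Nat.succ, Nat.succ_injective⟩), Finset.insert_nonempty _ _, ?_⟩
    rw [Finset.sum_insert (by simp), e, Finset.sum_map]
    rfl

/-- An infinite field of characteristic two has a sequence all whose finite sums are nonzero. -/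
theorem exists_stream (L : Type) [Field L] [Infinite L] (hL : ∀ x : L, x + x = 0) :
    ∃ a : Stream' L, ∀ m ∈ FS a, m ≠ 0 := by
  have hc : CharP L 2 := by
    refine CharTwo.of_one_ne_zero_of_two_eq_zero one_ne_zero ?_
    have := hL 1
    rwa [one_add_one_eq_two] at this
  let _ : Algebra (ZMod 2) L := ZMod.algebra L 2
  let b := Module.Basis.ofVectorSpace (ZMod 2) L
  have hinf : Infinite (Module.Basis.ofVectorSpaceIndex (ZMod 2) L) := by
    by_contra hfin
    rw [not_infinite_iff_finite] at hfin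
    have h1 : Module.Finite (ZMod 2) L := Module.Finite.of_basis b
    have h2 : Finite L := Module.finite_of_finite (ZMod 2)
    exact not_finite L
  let em := Infinite.natEmbedding (Module.Basis.ofVectorSpaceIndex (ZMod 2) L)
  have hli : LinearIndependent (ZMod 2) (fun n => b (em n)) := b.linearIndependent.comp _ em.injective
  refine ⟨fun n => b (em n), fun m hm h0 => ?_⟩
  obtain ⟨s, ⟨i, hi⟩, e⟩ := exists_sum_of_mem_FS _ m hm
  rw [h0] at e
  have h1 := linearIndependent_iff'.1 hli s (fun _ => 1) (by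
    simp only [one_smul]
    exact e.symm) i hi
  exact one_ne_zero h1

/-- A colour of a point with respect to an ultrafilter. -/
theorem exists_colour {X κ : Type} [Finite κ] (U : Ultrafilter X) (χ : X → κ) :
    ∃ k, ∀ᶠ x in U, χ x = k := by
  have h1 : (⋃ k : κ, {x | χ x = k}) ∈ (U : Filter X) := by
    have : (⋃ k : κ, {x | χ x = k}) = Set.univ := by
      ext x
      simp
    rw [this]
    exact univ_mem
  by_contra hcon
  have hcon' : ∀ k, ∀ᶠ x in U, χ x ≠ k := fun k =>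
    Ultrafilter.eventually_not.2 fun h => hcon ⟨k, h⟩
  have h2 : ∀ k, ∀ᶠ x in U, χ x ≠ k := fun k => hcon' k
  have h3 : ∀ᶠ x in (U : Filter X), ∀ k, χ x ≠ k := eventually_all.2 h2
  obtain ⟨x, hx⟩ := h3.exists
  exact hx _ rfl

/-- Hindman and Schur together. -/
theorem hind {L : Type} [Field L] [Infinite L] (hL : ∀ x : L, x + x = 0) {κ : Type} [Finite κ]
    (χ : L → κ) : ∃ (e1 e2 : L) (l : ℕ → L) (k : κ), e1 ≠ 0 ∧ e2 ≠ 0 ∧ e1 + e2 ≠ 0 ∧
      ∀ s : Finset ℕ, s.Nonempty → (∑ i ∈ s, l i ≠ 0 ∧ χ ((∑ i ∈ s, l i)⁻¹ * e1) = k ∧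
        χ ((∑ i ∈ s, l i)⁻¹ * e2) = k ∧ χ ((∑ i ∈ s, l i)⁻¹ * (e1 + e2)) = k) := by
  obtain ⟨a, ha⟩ := exists_stream L hL
  obtain ⟨U, hU, haU⟩ := exists_idempotent_ultrafilter_le_FS a
  have hU0 : ∀ᶠ m : L in (U : Filter L), m ≠ 0 := haU.mono ha
  choose c hc using fun e : L => exists_colour U (fun l => χ (l⁻¹ * e))
  obtain ⟨k, hk⟩ := exists_colour U c
  obtain ⟨b, hb⟩ := exists_FS_of_large U hU {e | e ≠ 0 ∧ c e = k} (hU0.and hk)
  have h1 := hb (FS.head b)
  have h2 := hb (FS.tail b _ (FS.head b.tail))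
  have h3 := hb (FS.cons b _ (FS.head b.tail))
  set e1 := b.head
  set e2 := b.tail.head
  have h4 : ∀ᶠ l : L in (U : Filter L), l ≠ 0 ∧ χ (l⁻¹ * e1) = k ∧ χ (l⁻¹ * e2) = k ∧ χ (l⁻¹ * (e1 + e2)) = k := by
    filter_upwards [hU0, hc e1, hc e2, hc (e1 + e2)] with l g0 g1 g2 g3
    exact ⟨g0, g1.trans h1.2, g2.trans h2.2, g3.trans h3.2⟩
  obtain ⟨l, hl⟩ := exists_FS_of_large U hU _ h4
  exact ⟨e1, e2, l.get, k, h1.1, h2.1, h3.1, fun s hs => hl (FS.finsetSum l s hs)⟩

end Pool.Agent.HuaPP2_39
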