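import Mathlib

/-!
A preorder on the nonzero vectors of a space over the field with two elements, such that every
nonzero vector of a space of dimension three is dominated by another one: the finite subspaces have
at most three maximal classes.
-/

set_option autoImplicit false

namespace Pool.Agent.HuaPP2_39

variable {V : Type} [AddCommGroup V]

/-- A preorder on the nonzero vectors with the property of the spaces of dimension three. -/
structure Pre (ge : V → V → Prop) : Prop where
  refl : ∀ u, u ≠ 0 → ge u u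
  trans : ∀ u v w, u ≠ 0 → v ≠ 0 → w ≠ 0 → ge u v → ge v w → ge u w
  three : ∀ c a b, c ≠ 0 → a ≠ 0 → b ≠ 0 → a + c ≠ 0 → b + c ≠ 0 → a + b ≠ 0 → a + b + c ≠ 0 →
    ge a c ∨ ge b c ∨ ge (a + b) c ∨ ge (a + c) c ∨ ge (b + c) c ∨ ge (a + b + c) c

/-- The size of the class of a maximal element. -/
theorem Pre.card_up {ge : V → V → Prop} (P : Pre ge) (h2 : ∀ x : V, x + x = 0)
    (D : AddSubgroup V) [DecidableEq V] (F : Finset V) (hF : ∀ x, x ∈ F ↔ x ∈ D)
    [∀ x y, Decidable (ge x y)] {q : V} (hq : q ∈ D) (hq0 : q ≠ 0) :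
    F.card ≤ 4 * (F.filter fun x => x ≠ 0 ∧ ge x q).card := by
  classical
  set U := F.filter fun x => x ≠ 0 ∧ ge x q with hU
  set B := F.filter fun x => x ≠ 0 ∧ x ≠ q ∧ ¬ ge x q ∧ ¬ ge (x + q) q with hB
  have add_cancel' : ∀ x y : V, x + y + y = x := fun x y => by rw [add_assoc, h2, add_zero]
  have eq_of : ∀ x y : V, x + y = 0 → x = y := by
    intro x y h
    have := add_cancel' x y
    rw [h, zero_add] at this
    exact this.symm
  -- `B` has at most half of the elements
  have h1 : 2 * B.card ≤ F.card := by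
    rcases B.eq_empty_or_nonempty with h0 | ⟨b, hb⟩
    · rw [h0]; simp
    · have hbF : b ∈ F ∧ b ≠ 0 ∧ b ≠ q ∧ ¬ ge b q ∧ ¬ ge (b + q) q := by
        rw [hB, Finset.mem_filter] at hb
        exact hb
      have hdis : Disjoint B (B.image fun x => x + b) := by
        rw [Finset.disjoint_left]
        intro y hy hy'
        obtain ⟨x, hx, rfl⟩ := Finset.mem_image.1 hy'
        rw [hB, Finset.mem_filter] at hx hy
        obtain ⟨-, x0, xq, x1, x2⟩ := hx
        obtain ⟨-, b0, bq, b1, b2⟩ := hbF
        obtain ⟨-, y0, yq, y1, y2⟩ := hy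
        have hqx : x + q ≠ 0 := fun h => xq (eq_of _ _ h)
        have hqb : b + q ≠ 0 := fun h => bq (eq_of _ _ h)
        have hqy : x + b + q ≠ 0 := fun h => yq (eq_of _ _ h)
        rcases P.three q x b hq0 x0 b0 hqx hqb y0 hqy with h | h | h | h | h | h
        · exact x1 h
        · exact b1 h
        · exact y1 h
        · exact x2 h
        · exact b2 h
        · exact y2 h
      have hsub : B ∪ (B.image fun x => x + b) ⊆ F := by
        apply Finset.union_subset (Finset.filter_subset _ _)
        intro y hy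
        obtain ⟨x, hx, rfl⟩ := Finset.mem_image.1 hy
        rw [hF]
        exact D.add_mem ((hF x).1 (Finset.mem_of_mem_filter x hx)) ((hF b).1 hbF.1)
      have h3 := Finset.card_le_card hsub
      rw [Finset.card_union_of_disjoint hdis, Finset.card_image_of_injective _
        (fun x y h => add_right_cancel h)] at h3
      omega
  -- the rest is covered by two translates of `U`
  have h3 : F \ B ⊆ U ∪ (U.image fun x => x + q) := by
    intro x hx
    rw [Finset.mem_sdiff, hB, Finset.mem_filter] at hx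
    obtain ⟨hxF, hx⟩ := hx
    rw [Finset.mem_union, Finset.mem_image]
    have key : (x ≠ 0 ∧ ge x q) ∨ (x + q ≠ 0 ∧ ge (x + q) q) := by
      by_cases x0 : x = 0
      · right
        rw [x0, zero_add]
        exact ⟨hq0, P.refl q hq0⟩
      by_cases xq : x = q
      · left
        rw [xq]
        exact ⟨hq0, P.refl q hq0⟩
      by_cases x1 : ge x q
      · left
        exact ⟨x0, x1⟩
      · right
        refine ⟨fun h => xq (eq_of _ _ h), ?_⟩
        by_contra x2
        exact hx ⟨hxF, x0, xq, x1, x2⟩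
    rcases key with h | h
    · left
      rw [hU, Finset.mem_filter]
      exact ⟨hxF, h⟩
    · right
      refine ⟨x + q, ?_, add_cancel' x q⟩
      rw [hU, Finset.mem_filter]
      exact ⟨(hF _).2 (D.add_mem ((hF x).1 hxF) hq), h⟩
  have h4 := Finset.card_le_card h3
  have h5 := Finset.card_union_le U (U.image fun x => x + q)
  have h6 : (U.image fun x => x + q).card ≤ U.card := Finset.card_image_le
  have h7 : F.card = (F \ B).card + B.card := by
    rw [Finset.card_sdiff_add_card_eq_card (Finset.filter_subset _ _)]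
  omega

/-- A finite preorder has maximal elements. -/
theorem Pre.exists_max {ge : V → V → Prop} (P : Pre ge) (F : Finset V) {d : V} (hd : d ∈ F)
    (hd0 : d ≠ 0) : ∃ q ∈ F, q ≠ 0 ∧ ge q d ∧ ∀ x ∈ F, x ≠ 0 → ge x q → ge q x := by
  classical
  -- choose an element above `d` with the least number of elements above it
  obtain ⟨q, hq, hmin⟩ := Finset.exists_min_image (F.filter fun x => x ≠ 0 ∧ ge x d)
    (fun x => (F.filter fun y => y ≠ 0 ∧ ge y x).card)
    ⟨d, by rw [Finset.mem_filter]; exact ⟨hd, hd0, P.refl d hd0⟩⟩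
  rw [Finset.mem_filter] at hq
  obtain ⟨hqF, hq0, hqd⟩ := hq
  refine ⟨q, hqF, hq0, hqd, fun x hx hx0 hxq => ?_⟩
  by_contra hqx
  have h1 := hmin x (by
    rw [Finset.mem_filter]
    exact ⟨hx, hx0, P.trans x q d hx0 hq0 hd0 hxq hqd⟩)
  have h2 : (F.filter fun y => y ≠ 0 ∧ ge y x) ⊂ (F.filter fun y => y ≠ 0 ∧ ge y q) := by
    rw [Finset.ssubset_iff_of_subset]
    · refine ⟨q, ?_, ?_⟩
      · rw [Finset.mem_filter]
        exact ⟨hqF, hq0, P.refl q hq0⟩
      · rw [Finset.mem_filter]
        rintro ⟨-, -, h⟩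
        exact hqx h
    · intro y hy
      rw [Finset.mem_filter] at hy ⊢
      exact ⟨hy.1, hy.2.1, P.trans y x q hy.2.1 hx0 hq0 hy.2.2 hxq⟩
  have h3 := Finset.card_lt_card h2
  omega

/-- Three elements dominate a finite subspace. -/
theorem Pre.three_max {ge : V → V → Prop} (P : Pre ge) (h2 : ∀ x : V, x + x = 0)
    (D : AddSubgroup V) [Finite D] :
    ∃ T : Finset V, T.card ≤ 3 ∧ (∀ t ∈ T, t ≠ 0) ∧ ∀ d ∈ D, d ≠ 0 → ∃ t ∈ T, ge t d := by
  classical
  have hfin : (D : Set V).Finite := Set.toFinite _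
  set F := hfin.toFinset with hFdef
  have hF : ∀ x, x ∈ F ↔ x ∈ D := fun x => by rw [hFdef, Set.Finite.mem_toFinset]; rfl
  let good : Finset V → Prop := fun T => (∀ t ∈ T, t ∈ F ∧ t ≠ 0 ∧
    ∀ x ∈ F, x ≠ 0 → ge x t → ge t x) ∧ ∀ t ∈ T, ∀ t' ∈ T, t ≠ t' → ¬ ge t t'
  obtain ⟨T, hT, hTmax⟩ := Finset.exists_max_image (F.powerset.filter good) Finset.card
    ⟨∅, by
      rw [Finset.mem_filter, Finset.mem_powerset]
      exact ⟨Finset.empty_subset _, fun t ht => absurd ht (Finset.notMem_empty t),
        fun t ht => absurd ht (Finset.notMem_empty t)⟩⟩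
  rw [Finset.mem_filter, Finset.mem_powerset] at hT
  obtain ⟨hTF, hT1, hT2⟩ := hT
  refine ⟨T, ?_, fun t ht => (hT1 t ht).2.1, ?_⟩
  · -- the sets above the elements of `T` are disjoint
    have hdis : (T : Set V).PairwiseDisjoint fun t => F.filter fun x => x ≠ 0 ∧ ge x t := by
      intro t ht t' ht' htt
      rw [Function.onFun, Finset.disjoint_left]
      intro x hx hx'
      rw [Finset.mem_filter] at hx hx'
      have h3 := (hT1 t ht).2.2 x hx.1 hx.2.1 hx.2.2
      exact hT2 t ht t' ht' htt (P.trans t x t' (hT1 t ht).2.1 hx.2.1 (hT1 t' ht').2.1 h3 hx'.2.2)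
    have h3 := Finset.card_biUnion hdis
    have h4 : (T.biUnion fun t => F.filter fun x => x ≠ 0 ∧ ge x t) ⊆ F.erase 0 := by
      intro x hx
      rw [Finset.mem_biUnion] at hx
      obtain ⟨t, -, hx⟩ := hx
      rw [Finset.mem_filter] at hx
      exact Finset.mem_erase.2 ⟨hx.2.1, hx.1⟩
    have h5 := Finset.card_le_card h4
    have h0F : (0 : V) ∈ F := (hF 0).2 D.zero_mem
    rw [Finset.card_erase_of_mem h0F, h3] at h5
    have hpos : 0 < F.card := Finset.card_pos.2 ⟨0, h0F⟩
    have h6 : T.card * F.card ≤ ∑ t ∈ T, 4 * (F.filter fun x => x ≠ 0 ∧ ge x t).card := by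
      rw [← smul_eq_mul, ← Finset.sum_const]
      apply Finset.sum_le_sum
      intro t ht
      exact P.card_up h2 D F hF ((hF t).1 (hT1 t ht).1) (hT1 t ht).2.1
    rw [← Finset.mul_sum] at h6
    by_contra hcon
    have h7 : 4 ≤ T.card := by omega
    have h8 : 4 * F.card ≤ T.card * F.card := Nat.mul_le_mul_right _ h7
    omega
  · intro d hd hd0
    obtain ⟨q, hqF, hq0, hqd, hqm⟩ := P.exists_max F ((hF d).2 hd) hd0
    by_contra hcon
    push Not at hcon
    have hnot : ∀ t ∈ T, ¬ ge t q := fun t ht h =>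
      hcon t ht (P.trans t q d (hT1 t ht).2.1 hq0 hd0 h hqd)
    have hqT : q ∉ T := fun h => hnot q h (P.refl q hq0)
    have h3 := hTmax (insert q T) (by
      rw [Finset.mem_filter, Finset.mem_powerset]
      refine ⟨Finset.insert_subset hqF hTF, ?_, ?_⟩
      · intro t ht
        rcases Finset.mem_insert.1 ht with rfl | ht
        · exact ⟨hqF, hq0, hqm⟩
        · exact hT1 t ht
      · intro t ht t' ht' htt
        rcases Finset.mem_insert.1 ht with e1 | ht1
        · rcases Finset.mem_insert.1 ht' with e2 | ht2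
          · exact absurd (e1.trans e2.symm) htt
          · intro h
            rw [e1] at h
            exact hnot t' ht2 ((hT1 t' ht2).2.2 q hqF hq0 h)
        · rcases Finset.mem_insert.1 ht' with e2 | ht2
          · rw [e2]
            exact hnot t ht1
          · exact hT2 t ht1 t' ht2 htt)
    rw [Finset.card_insert_of_notMem hqT] at h3
    omega

end Pool.Agent.HuaPP2_39
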