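import Mathlib
import Pool.Agent.HuaPP2_39.Max3
import Pool.Agent.HuaPP2_39.Hind

/-!
Directedness and simultaneous domination, from the property of the spaces of dimension three and
from the property of the lines.
-/

set_option autoImplicit false

open Combinatorics

namespace Pool.Agent.HuaPP2_39

variable {V : Type} [AddCommGroup V] {L : Type} [Field L]

/-- The axioms of the domination relations. -/
structure Dom (ψ : L →+ V) (Y : V → L →+ V) (R : V → V → Prop) : Prop where
  ne : ∀ a b, R a b → a ≠ 0 ∧ b ≠ 0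
  refl : ∀ c, c ≠ 0 → R c c
  trans : ∀ a b c, R a b → R b c → R a c
  three : ∀ q a b, q ≠ 0 → a ≠ 0 → b ≠ 0 → a + b ≠ 0 → q + a ≠ 0 → q + b ≠ 0 → q + a + b ≠ 0 →
    R a q ∨ R b q ∨ R (a + b) q ∨ R (q + a) q ∨ R (q + b) q ∨ R (q + a + b) q
  line : ∀ g k1 k2 k3 z, k1 ≠ 0 → k2 ≠ 0 → k3 ≠ 0 → k1⁻¹ + k2⁻¹ + k3⁻¹ = 0 →
    R g (ψ k1⁻¹) → R g (ψ k2⁻¹) → R g (ψ k3⁻¹) → z ≠ 0 → z + Y g k1 ≠ 0 → z + Y g k2 ≠ 0 →
    z + Y g k3 ≠ 0 → R z g ∨ R (z + Y g k1) g ∨ R (z + Y g k2) g ∨ R (z + Y g k3) g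

variable {ψ : L →+ V} {Y : V → L →+ V} {R : V → V → Prop}

theorem Dom.pre (D : Dom ψ Y R) : Pre R where
  refl := D.refl
  trans u v w _ _ _ h1 h2 := D.trans u v w h1 h2
  three c a b hc ha hb hac hbc hab habc := by
    rcases D.three c a b hc ha hb hab (by rwa [add_comm]) (by rwa [add_comm])
      (by rwa [add_assoc, add_comm]) with h | h | h | h | h | h
    · exact Or.inl h
    · exact Or.inr (Or.inl h)
    · exact Or.inr (Or.inr (Or.inl h))
    · rw [add_comm] at h
      exact Or.inr (Or.inr (Or.inr (Or.inl h)))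
    · rw [add_comm] at h
      exact Or.inr (Or.inr (Or.inr (Or.inr (Or.inl h))))
    · rw [add_assoc, add_comm] at h
      exact Or.inr (Or.inr (Or.inr (Or.inr (Or.inr h))))

/-- Finitely generated subgroups are finite in exponent two. -/
theorem finite_closure (h2 : ∀ x : V, x + x = 0) (F : Finset V) :
    Finite (AddSubgroup.closure (F : Set V)) := by
  letI : Module (ZMod 2) V := AddCommGroup.zmodModule (n := 2) fun x => by
    rw [two_nsmul]; exact h2 x
  have h1 : Finite (Submodule.span (ZMod 2) (F : Set V)) := by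
    have : Module.Finite (ZMod 2) (Submodule.span (ZMod 2) (F : Set V)) :=
      Module.Finite.span_finset _ _
    exact Module.finite_of_finite (ZMod 2)
  have h3 : (AddSubgroup.closure (F : Set V) : Set V) ⊆ Submodule.span (ZMod 2) (F : Set V) := by
    have : AddSubgroup.closure (F : Set V) ≤
        (Submodule.span (ZMod 2) (F : Set V)).toAddSubgroup := by
      rw [AddSubgroup.closure_le]
      exact Submodule.subset_span
    exact this
  exact (Set.toFinite _).subset h3

/-- Among four elements two are dominated by the same element. -/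
theorem Dom.four (D : Dom ψ Y R) (h2 : ∀ x : V, x + x = 0) (T : Finset V)
    (hT0 : ∀ t ∈ T, t ≠ 0) (hT : ∀ t ∈ T, ∀ t' ∈ T, t ≠ t' → ¬ ∃ u, R u t ∧ R u t') :
    T.card ≤ 3 := by
  classical
  have := finite_closure h2 T
  set E := AddSubgroup.closure (T : Set V)
  obtain ⟨M, hM, hM0, hM1⟩ := D.pre.three_max h2 E
  choose! f hf hfR using fun t (ht : t ∈ T) =>
    hM1 t (AddSubgroup.subset_closure ht) (hT0 t ht)
  refine le_trans (Finset.card_le_card_of_injOn f hf ?_) hM
  intro t ht t' ht' e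
  by_contra hne
  refine hT t ht t' ht' hne ⟨f t, hfR t ht, ?_⟩
  rw [e]
  exact hfR t' ht'

/-- A colouring with finitely many colours, such that the finite sets of one colour have upper
bounds. -/
theorem Dom.colour (D : Dom ψ Y R) (h2 : ∀ x : V, x + x = 0) (hV : ∃ x : V, x ≠ 0) :
    ∃ (T : Finset V) (χ : V → T), ∀ (t : T) (F : Finset V), (∀ x ∈ F, x ≠ 0 ∧ χ x = t) →
      ∃ u, u ≠ 0 ∧ ∀ x ∈ F, R u x := by
  classical
  let good : Finset V → Prop := fun T => (∀ t ∈ T, t ≠ 0) ∧
    ∀ t ∈ T, ∀ t' ∈ T, t ≠ t' → ¬ ∃ u, R u t ∧ R u t'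
  have hg : ∃ T, good T ∧ ∀ T', good T' → T'.card ≤ T.card := by
    let Q : ℕ → Prop := fun n => ∃ T, good T ∧ T.card = n
    have hQ0 : Q 0 := ⟨∅, ⟨by simp, by simp⟩, rfl⟩
    have hQ : Q (Nat.findGreatest Q 3) := Nat.findGreatest_spec (Nat.zero_le 3) hQ0
    obtain ⟨T, hT, hTc⟩ := hQ
    refine ⟨T, hT, fun T' hT' => ?_⟩
    rw [hTc]
    exact Nat.le_findGreatest (D.four h2 T' hT'.1 hT'.2) ⟨T', hT', rfl⟩
  obtain ⟨T, ⟨hT0, hT⟩, hmax⟩ := hg
  -- every element is compatible with an element of `T`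
  have hcov : ∀ x, x ≠ 0 → ∃ t ∈ T, ∃ u, R u t ∧ R u x := by
    intro x hx
    by_contra hcon
    push Not at hcon
    have hxT : x ∉ T := fun h => hcon x h x (D.refl x hx) (D.refl x hx)
    have h3 := hmax (insert x T) ⟨by
        intro t ht
        rcases Finset.mem_insert.1 ht with e | ht
        · rw [e]; exact hx
        · exact hT0 t ht, by
        intro t ht t' ht' htt
        rcases Finset.mem_insert.1 ht with e1 | ht1
        · rcases Finset.mem_insert.1 ht' with e2 | ht2
          · exact absurd (e1.trans e2.symm) htt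
          · rintro ⟨u, hu, hu'⟩
            rw [e1] at hu
            exact hcon t' ht2 u hu' hu
        · rcases Finset.mem_insert.1 ht' with e2 | ht2
          · rintro ⟨u, hu, hu'⟩
            rw [e2] at hu'
            exact hcon t ht1 u hu hu'
          · exact hT t ht1 t' ht2 htt⟩
    rw [Finset.card_insert_of_notMem hxT] at h3
    omega
  -- the elements above an element of `T` are directed
  have hdir : ∀ t ∈ T, ∀ u v, R u t → R v t → ∃ w, R w u ∧ R w v := by
    intro t ht u v hu hv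
    by_contra hcon
    push Not at hcon
    have hu0 := (D.ne u t hu).1
    have hv0 := (D.ne v t hv).1
    have huT : u ∉ T.erase t := fun h => by
      rw [Finset.mem_erase] at h
      exact hT u h.2 t ht h.1 ⟨u, D.refl u hu0, hu⟩
    have hvT : v ∉ T.erase t := fun h => by
      rw [Finset.mem_erase] at h
      exact hT v h.2 t ht h.1 ⟨v, D.refl v hv0, hv⟩
    have huv : u ≠ v := fun h => hcon u (D.refl u hu0) (h ▸ D.refl u hu0)
    have huT' : u ∉ insert v (T.erase t) := fun h => by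
      rcases Finset.mem_insert.1 h with h | h
      · exact huv h
      · exact huT h
    have hx : ∀ s ∈ T.erase t, ∀ w, R w u ∨ R w v → ¬ R w s := by
      intro s hs w hw hws
      rw [Finset.mem_erase] at hs
      refine hT s hs.2 t ht hs.1 ⟨w, hws, ?_⟩
      rcases hw with hw | hw
      · exact D.trans w u t hw hu
      · exact D.trans w v t hw hv
    have h3 := hmax (insert u (insert v (T.erase t))) ⟨by
        intro s hs
        rcases Finset.mem_insert.1 hs with e | hs
        · rw [e]; exact hu0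
        rcases Finset.mem_insert.1 hs with e | hs
        · rw [e]; exact hv0
        exact hT0 s (Finset.mem_of_mem_erase hs), by
        intro s hs s' hs' hss
        rintro ⟨w, hw, hw'⟩
        rcases Finset.mem_insert.1 hs with e | hs
        · rw [e] at hw hss
          rcases Finset.mem_insert.1 hs' with e' | hs'
          · exact hss e'.symm
          rcases Finset.mem_insert.1 hs' with e' | hs'
          · rw [e'] at hw'
            exact hcon w hw hw'
          · exact hx s' hs' w (Or.inl hw) hw'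
        rcases Finset.mem_insert.1 hs with e | hs
        · rw [e] at hw hss
          rcases Finset.mem_insert.1 hs' with e' | hs'
          · rw [e'] at hw'
            exact hcon w hw' hw
          rcases Finset.mem_insert.1 hs' with e' | hs'
          · exact hss e'.symm
          · exact hx s' hs' w (Or.inr hw) hw'
        · rcases Finset.mem_insert.1 hs' with e' | hs'
          · rw [e'] at hw'
            exact hx s hs w (Or.inl hw') hw
          rcases Finset.mem_insert.1 hs' with e' | hs'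
          · rw [e'] at hw'
            exact hx s hs w (Or.inr hw') hw
          · rw [Finset.mem_erase] at hs hs'
            exact hT s hs.2 s' hs'.2 hss ⟨w, hw, hw'⟩⟩
    rw [Finset.card_insert_of_notMem huT', Finset.card_insert_of_notMem hvT,
      Finset.card_erase_of_mem ht] at h3
    have : 0 < T.card := Finset.card_pos.2 ⟨t, ht⟩
    omega
  choose! c hcT hcR using hcov
  obtain ⟨x0, hx0⟩ := hV
  refine ⟨T, fun x => if h : x ≠ 0 then ⟨c x, hcT x h⟩ else ⟨c x0, hcT x0 hx0⟩, ?_⟩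
  rintro ⟨t, ht⟩ F hF
  -- the elements of `F` are compatible with `t`
  have hF' : ∀ x ∈ F, ∃ u, R u t ∧ R u x := by
    intro x hx
    obtain ⟨hx0, hx1⟩ := hF x hx
    simp only [dif_pos hx0] at hx1
    have e : c x = t := congrArg Subtype.val hx1
    have := hcR x hx0
    rwa [e] at this
  clear hF
  have key : ∃ u, R u t ∧ ∀ x ∈ F, R u x := by
    induction F using Finset.induction_on with
    | empty => exact ⟨t, D.refl t (hT0 t ht), by simp⟩
    | insert x F _ ih =>
      obtain ⟨u, hut, hu⟩ := ih (fun x hx => hF' x (Finset.mem_insert_of_mem hx))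
      obtain ⟨v, hvt, hv⟩ := hF' x (Finset.mem_insert_self _ _)
      obtain ⟨w, hwu, hwv⟩ := hdir t ht u v hut hvt
      refine ⟨w, D.trans w u t hwu hut, ?_⟩
      intro y hy
      rcases Finset.mem_insert.1 hy with e | hy
      · rw [e]
        exact D.trans w v x hwv hv
      · exact D.trans w u y hwu (hu y hy)
  obtain ⟨u, hut, hu⟩ := key
  exact ⟨u, (D.ne u t hut).1, hu⟩

/-- `g` dominates the first `N` elements of the Hindman sequence. -/
def Good (ψ : L →+ V) (R : V → V → Prop) (e : Fin 3 → L) (l : ℕ → L) (N : ℕ) (g : V) : Prop :=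
  g ≠ 0 ∧ ∀ s : Finset ℕ, s.Nonempty → s ⊆ Finset.range N → ∀ j,
    R g (ψ ((∑ i ∈ s, l i)⁻¹ * e j))

theorem Good.mono {e : Fin 3 → L} {l : ℕ → L} {N : ℕ} {g g' : V}
    (hg : Good ψ R e l N g) (D : Dom ψ Y R) (h : R g' g) : Good ψ R e l N g' :=
  ⟨(D.ne _ _ h).1, fun s hs hsN j => D.trans _ _ _ h (hg.2 s hs hsN j)⟩

/-- The Hindman sequence of a domination relation. -/
theorem Dom.exists_good [Infinite L] (D : Dom ψ Y R) (h2 : ∀ x : V, x + x = 0)
    (hψ : Function.Injective ψ) : ∃ (e : Fin 3 → L) (l : ℕ → L), (∀ j, e j ≠ 0) ∧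
      e 0 + e 1 + e 2 = 0 ∧ (∀ s : Finset ℕ, s.Nonempty → ∑ i ∈ s, l i ≠ 0) ∧
      ∀ N, ∃ g, Good ψ R e l N g := by
  classical
  have hL : ∀ x : L, x + x = 0 := fun x => hψ (by rw [map_add, h2, map_zero])
  have hψ0 : ∀ x : L, x ≠ 0 → ψ x ≠ 0 := fun x hx h => hx (hψ (by rw [h, map_zero]))
  obtain ⟨T, χ, hχ⟩ := D.colour h2 ⟨ψ 1, hψ0 1 one_ne_zero⟩
  obtain ⟨e1, e2, l, k, he1, he2, he3, hl⟩ := hind hL (fun x => χ (ψ x))
  refine ⟨![e1, e2, e1 + e2], l, ?_, ?_, fun s hs => (hl s hs).1, fun N => ?_⟩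
  · intro j
    fin_cases j
    · exact he1
    · exact he2
    · exact he3
  · exact hL (e1 + e2)
  · obtain ⟨u, hu0, hu⟩ := hχ k ((Finset.range N).powerset.filter (fun s => s.Nonempty) |>.biUnion
      fun s => Finset.univ.image fun j : Fin 3 => ψ ((∑ i ∈ s, l i)⁻¹ * ![e1, e2, e1 + e2] j)) (by
      intro x hx
      simp only [Finset.mem_biUnion, Finset.mem_filter, Finset.mem_image, Finset.mem_univ,
        true_and] at hx
      obtain ⟨s, ⟨-, hs⟩, j, rfl⟩ := hx
      obtain ⟨h0, h1, h3, h4⟩ := hl s hs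
      fin_cases j
      · exact ⟨hψ0 _ (mul_ne_zero (inv_ne_zero h0) he1), h1⟩
      · exact ⟨hψ0 _ (mul_ne_zero (inv_ne_zero h0) he2), h3⟩
      · exact ⟨hψ0 _ (mul_ne_zero (inv_ne_zero h0) he3), h4⟩)
    refine ⟨u, hu0, fun s hs hsN j => hu _ ?_⟩
    simp only [Finset.mem_biUnion, Finset.mem_filter, Finset.mem_image, Finset.mem_univ,
      true_and, Finset.mem_powerset]
    exact ⟨s, ⟨hsN, hs⟩, j, rfl⟩

/-- The letters: nothing, or one of the three directions. -/
def letter (Y : V → L →+ V) (e : Fin 3 → L) (g : V) (x : L) : Fin 4 → V :=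
  Fin.cons 0 fun j => Y g (x * (e j)⁻¹)

theorem letter_zero (Y : V → L →+ V) (e : Fin 3 → L) (g : V) (x : L) : letter Y e g x 0 = 0 := rfl

theorem letter_sum (Y : V → L →+ V) (e : Fin 3 → L) (g : V) (s : Finset ℕ) (l : ℕ → L)
    (t : Fin 4) : ∑ i ∈ s, letter Y e g (l i) t = letter Y e g (∑ i ∈ s, l i) t := by
  refine Fin.cases ?_ (fun j => ?_) t
  · simp only [letter_zero, Finset.sum_const_zero]
  · simp only [letter, Fin.cons_succ]
    rw [Finset.sum_mul, map_sum]

/-- The admissible lines for a set `Bad`. -/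
def NoLine (ψ : L →+ V) (Y : V → L →+ V) (R : V → V → Prop) (g : V) (Bad : Set V) : Prop :=
  ∀ k1 k2 k3 z, k1 ≠ 0 → k2 ≠ 0 → k3 ≠ 0 → k1⁻¹ + k2⁻¹ + k3⁻¹ = 0 →
    R g (ψ k1⁻¹) → R g (ψ k2⁻¹) → R g (ψ k3⁻¹) → z ∈ Bad → z + Y g k1 ∈ Bad →
    z + Y g k2 ∈ Bad → z + Y g k3 ∈ Bad → False

/-- The combinatorial line through a point. -/
theorem Good.line_false {e : Fin 3 → L} {l : ℕ → L} {N : ℕ} {g : V} {Bad : Set V}
    (hg : Good ψ R e l N g) (he : ∀ j, e j ≠ 0) (hes : e 0 + e 1 + e 2 = 0)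
    (hl : ∀ s : Finset ℕ, s.Nonempty → ∑ i ∈ s, l i ≠ 0) (hB : NoLine ψ Y R g Bad)
    (s : Finset ℕ) (hs : s.Nonempty) (hsN : s ⊆ Finset.range N) (z : V)
    (h : ∀ t, z + letter Y e g (∑ i ∈ s, l i) t ∈ Bad) : False := by
  have h0 := hl s hs
  set x := ∑ i ∈ s, l i
  have hk : ∀ j, (x * (e j)⁻¹)⁻¹ = x⁻¹ * e j := fun j => by rw [mul_inv, inv_inv]
  refine hB (x * (e 0)⁻¹) (x * (e 1)⁻¹) (x * (e 2)⁻¹) z
    (mul_ne_zero h0 (inv_ne_zero (he _))) (mul_ne_zero h0 (inv_ne_zero (he _)))
    (mul_ne_zero h0 (inv_ne_zero (he _))) ?_ ?_ ?_ ?_ ?_ ?_ ?_ ?_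
  · rw [hk, hk, hk, ← mul_add, ← mul_add, hes, mul_zero]
  · rw [hk]
    exact hg.2 s hs hsN 0
  · rw [hk]
    exact hg.2 s hs hsN 1
  · rw [hk]
    exact hg.2 s hs hsN 2
  · have := h 0
    rwa [letter_zero, add_zero] at this
  · exact h 1
  · exact h 2
  · exact h 3

/-- The Hales-Jewett step for several relations at once. -/
theorem hj (m : ℕ) (κ : Type) [Finite κ] (p : κ → Fin m) : ∃ N : ℕ, ∀ (V : Type) [AddCommGroup V]
    (L : Type) [Field L] (ψ : L →+ V) (Y : V → L →+ V) (R : Fin m → V → V → Prop)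
    (e : Fin m → Fin 3 → L) (l : Fin m → ℕ → L) (g : Fin m → V) (Bad : κ → Set V),
    (∀ j i, e j i ≠ 0) → (∀ j, e j 0 + e j 1 + e j 2 = 0) →
    (∀ j (s : Finset ℕ), s.Nonempty → ∑ i ∈ s, l j i ≠ 0) →
    (∀ j, Good ψ (R j) (e j) (l j) N (g j)) →
    (∀ k, NoLine ψ Y (R (p k)) (g (p k)) (Bad k)) → ∃ x, ∀ k, x ∉ Bad k := by
  classical
  obtain ⟨ι, fι, hι⟩ := Line.exists_mono_in_high_dimension (Fin m → Fin 4) κ
  let q := Fintype.equivFin ι
  refine ⟨Fintype.card ι, ?_⟩
  intro V _ L _ ψ Y R e l g Bad he hes hl hg hB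
  by_contra hcon
  push Not at hcon
  let f : (ι → Fin m → Fin 4) → V := fun v =>
    ∑ i, ∑ j, letter Y (e j) (g j) (l j (q i)) (v i j)
  choose C hC using fun v => hcon (f v)
  obtain ⟨ℓ, k, hk⟩ := hι C
  let s : Finset ℕ := (Finset.univ.filter fun i => ℓ.idxFun i = none).image fun i => (q i : ℕ)
  have hinj : Function.Injective fun i : ι => (q i : ℕ) := fun i i' h =>
    q.injective (Fin.val_injective h)
  have hs : s.Nonempty := by
    obtain ⟨i, hi⟩ := ℓ.proper
    exact ⟨q i, Finset.mem_image.2 ⟨i, by simpa using hi, rfl⟩⟩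
  have hsN : s ⊆ Finset.range (Fintype.card ι) := by
    intro n hn
    obtain ⟨i, -, rfl⟩ := Finset.mem_image.1 hn
    exact Finset.mem_range.2 (q i).2
  set j := p k with hj
  refine (hg j).line_false (he j) (hes j) (hl j) (hB k) s hs hsN (f (ℓ fun _ => 0)) ?_
  intro t
  have h2 := hC (ℓ (fun j' => if j' = j then t else 0))
  rw [hk] at h2
  have h3 : f (ℓ (fun j' => if j' = j then t else 0)) =
      f (ℓ fun _ => 0) + letter Y (e j) (g j) (∑ i ∈ s, l j i) t := by
    rw [← letter_sum, Finset.sum_image (fun a _ b _ h => hinj h), Finset.sum_filter,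
      ← Finset.sum_add_distrib]
    apply Finset.sum_congr rfl
    intro i _
    rw [Line.coe_apply, Line.coe_apply]
    by_cases hi : ℓ.idxFun i = none
    · rw [hi, if_pos rfl]
      simp only [Option.getD_none, letter_zero, Finset.sum_const_zero, zero_add]
      rw [Finset.sum_eq_single j]
      · rw [if_pos rfl]
      · intro j' _ hj'
        rw [if_neg hj', letter_zero]
      · intro hk
        exact absurd (Finset.mem_univ j) hk
    · obtain ⟨y, hy⟩ := Option.ne_none_iff_exists.1 hi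
      rw [if_neg hi, ← hy, add_zero]
      simp only [Option.getD_some]
  rw [h3] at h2
  exact h2

end Pool.Agent.HuaPP2_39
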