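import Mathlib
import Pool.Agent.HuaPP2_39.Dir

/-!
Directedness and simultaneous domination.
-/

set_option autoImplicit false

namespace Pool.Agent.HuaPP2_39

variable {V : Type} [AddCommGroup V] {L : Type} [Field L]
  {ψ : L →+ V} {Y : V → L →+ V} {R : V → V → Prop}

theorem Good.anti {e : Fin 3 → L} {l : ℕ → L} {N M : ℕ} {g : V}
    (hg : Good ψ R e l N g) (h : M ≤ N) : Good ψ R e l M g :=
  ⟨hg.1, fun s hs hsM j => hg.2 s hs (hsM.trans (Finset.range_subset_range.2 h)) j⟩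

/-- Four translates of the elements above a good element meet. -/
theorem translates : ∃ N : ℕ, ∀ (V : Type) [AddCommGroup V]
    (L : Type) [Field L] (ψ : L →+ V) (Y : V → L →+ V) (R : V → V → Prop)
    (e : Fin 3 → L) (l : ℕ → L) (g : V), Dom ψ Y R →
    (∀ g k, g ≠ 0 → k ≠ 0 → Y g k ≠ 0) → (∀ i, e i ≠ 0) → (e 0 + e 1 + e 2 = 0) →
    (∀ (s : Finset ℕ), s.Nonempty → ∑ i ∈ s, l i ≠ 0) → Good ψ R e l N g →
    ∀ α : Fin 4 → V, ∃ x, ∀ i, x + α i ≠ 0 ∧ R (x + α i) g := by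
  obtain ⟨N, hN⟩ := hj 1 (Bool × Fin 4) (fun _ => 0)
  refine ⟨N, ?_⟩
  intro V _ L _ ψ Y R e l g D hY he hes hl hg α
  obtain ⟨x, hx⟩ := hN V L ψ Y (fun _ => R) (fun _ => e) (fun _ => l) (fun _ => g)
    (fun k => {x | if k.1 then x + α k.2 = 0 else x + α k.2 ≠ 0 ∧ ¬ R (x + α k.2) g})
    (fun _ => he) (fun _ => hes) (fun _ => hl) (fun _ => hg) (by
      rintro ⟨b, i⟩ k1 k2 k3 z h1 h2 h3 hs g1 g2 g3 z0 z1 z2 z3
      cases b with
      | true =>
        simp only [Set.mem_ofPred_eq, if_true] at z0 z1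
        apply hY g k1 hg.1 h1
        have e1 : z + Y g k1 + α i = (z + α i) + Y g k1 := by abel
        rw [e1, z0, zero_add] at z1
        exact z1
      | false =>
        simp only [Set.mem_ofPred_eq, Bool.false_eq_true, if_false] at z0 z1 z2 z3
        have e1 : ∀ k, z + Y g k + α i = (z + α i) + Y g k := fun k => by abel
        rw [e1] at z1 z2 z3
        rcases D.line g k1 k2 k3 (z + α i) h1 h2 h3 hs g1 g2 g3 z0.1 z1.1 z2.1 z3.1 with
          h | h | h | h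
        · exact z0.2 h
        · exact z1.2 h
        · exact z2.2 h
        · exact z3.2 h)
  refine ⟨x, fun i => ?_⟩
  have h1 := hx (true, i)
  have h2 := hx (false, i)
  simp only [Set.mem_ofPred_eq, if_true, Bool.false_eq_true, if_false] at h1 h2
  refine ⟨h1, ?_⟩
  by_contra h3
  exact h2 ⟨h1, h3⟩

/-- The bound for `translates`. -/
noncomputable def N4 : ℕ := translates.choose

/-- An element above a good element and a given one. -/
theorem Dom.upper (D : Dom ψ Y R) (hY : ∀ g k, g ≠ 0 → k ≠ 0 → Y g k ≠ 0)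
    {e : Fin 3 → L} {l : ℕ → L} {g : V} (he : ∀ i, e i ≠ 0) (hes : e 0 + e 1 + e 2 = 0)
    (hl : ∀ (s : Finset ℕ), s.Nonempty → ∑ i ∈ s, l i ≠ 0) {N : ℕ} (hg : Good ψ R e l N g)
    (hN : N4 ≤ N) {q : V} (hq : q ≠ 0) : ∃ u, R u g ∧ R u q := by
  have T := translates.choose_spec V L ψ Y R e l g D hY he hes hl (hg.anti hN)
  obtain ⟨a, ha⟩ := T ![0, q, 0, 0]
  obtain ⟨b, hb⟩ := T ![0, q, a, q + a]
  have a0 := ha 0
  have a1 := ha 1
  have b0 := hb 0
  have b1 := hb 1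
  have b2 := hb 2
  have b3 := hb 3
  simp only [Matrix.cons_val_zero, Matrix.cons_val_one, Matrix.cons_val, add_zero] at a0 a1 b0 b1 b2 b3
  have e1 : a + q = q + a := add_comm _ _
  have e2 : b + q = q + b := add_comm _ _
  have e3 : b + a = a + b := add_comm _ _
  have e4 : b + (q + a) = q + a + b := add_comm _ _
  rw [e1] at a1
  rw [e2] at b1
  rw [e3] at b2
  rw [e4] at b3
  rcases D.three q a b hq a0.1 b0.1 b2.1 a1.1 b1.1 b3.1 with h | h | h | h | h | h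
  · exact ⟨_, a0.2, h⟩
  · exact ⟨_, b0.2, h⟩
  · exact ⟨_, b2.2, h⟩
  · exact ⟨_, a1.2, h⟩
  · exact ⟨_, b1.2, h⟩
  · exact ⟨_, b3.2, h⟩

/-- The relation is directed. -/
theorem Dom.directed [Infinite L] (D : Dom ψ Y R) (h2 : ∀ x : V, x + x = 0)
    (hψ : Function.Injective ψ) (hY : ∀ g k, g ≠ 0 → k ≠ 0 → Y g k ≠ 0)
    (F : Finset V) (hF : (0 : V) ∉ F) : ∃ u, u ≠ 0 ∧ ∀ c ∈ F, R u c := by
  classical
  obtain ⟨e, l, he, hes, hl, hgood⟩ := D.exists_good h2 hψ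
  have key : ∃ u, Good ψ R e l N4 u ∧ ∀ c ∈ F, R u c := by
    induction F using Finset.induction_on with
    | empty =>
      obtain ⟨g, hg⟩ := hgood N4
      exact ⟨g, hg, by simp⟩
    | insert x F _ ih =>
      obtain ⟨u, hu, huF⟩ := ih (fun h => hF (Finset.mem_insert_of_mem h))
      obtain ⟨v, hv, hvx⟩ := D.upper hY he hes hl hu le_rfl (q := x)
        (fun h => hF (h ▸ Finset.mem_insert_self _ _))
      refine ⟨v, hu.mono D hv, ?_⟩
      intro y hy
      rcases Finset.mem_insert.1 hy with e1 | hy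
      · rw [e1]; exact hvx
      · exact D.trans v u y hv (huF y hy)
  obtain ⟨u, hu, huF⟩ := key
  exact ⟨u, hu.1, huF⟩

/-- Simultaneous domination for several relations. -/
theorem simul [Infinite L] (m : ℕ) (R : Fin m → V → V → Prop) (D : ∀ j, Dom ψ Y (R j))
    (h2 : ∀ x : V, x + x = 0) (hψ : Function.Injective ψ)
    (hY : ∀ g k, g ≠ 0 → k ≠ 0 → Y g k ≠ 0) (c : Fin m → V) (hc : ∀ j, c j ≠ 0)
    (Bad : Fin m → Set V)
    (hB : ∀ j g, R j g (c j) → ∀ k1 k2 k3 z, k1 ≠ 0 → k2 ≠ 0 → k3 ≠ 0 →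
      k1⁻¹ + k2⁻¹ + k3⁻¹ = 0 → R j g (ψ k1⁻¹) → R j g (ψ k2⁻¹) → R j g (ψ k3⁻¹) →
      z ∈ Bad j → z + Y g k1 ∈ Bad j → z + Y g k2 ∈ Bad j → z + Y g k3 ∈ Bad j → False) :
    ∃ x, ∀ j, x ∉ Bad j := by
  obtain ⟨N, hN⟩ := hj m (Fin m) id
  choose e l he hes hl hgood using fun j => (D j).exists_good h2 hψ
  choose g0 hg0 using fun j => hgood j (max N N4)
  choose g hg hgc using fun j => (D j).upper hY (he j) (hes j) (hl j) (hg0 j)
    (le_max_right _ _) (hc j)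
  exact hN V L ψ Y R e l g Bad he hes hl
    (fun j => ((hg0 j).mono (D j) (hg j)).anti (le_max_left _ _))
    (fun j => hB j (g j) (hgc j))

end Pool.Agent.HuaPP2_39
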